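import Pool.Agent.H4.InfLogic

namespace Pool.Agent.Results.MP_f264ea_lc.Groups

open Pool.Agent.H4.InfLogic

universe u

/-- A group as a structure in the signature `{1, ⁻¹, ·}`. -/
def str (M : Type u) [Group M] : Str Unit M := ⟨1, (·⁻¹), fun _ => (· * ·)⟩

def x (i : Fin 3) : Tm Unit (Empty ⊕ Fin 3) := .var (.inr i)

def ax : Fm Unit Empty := .all (Fin 3) (.conj (Fin 3)
  ![.eq (.op () (.op () (x 0) (x 1)) (x 2)) (.op () (x 0) (.op () (x 1) (x 2))),
    .eq (.op () .c (x 0)) (x 0), .eq (.op () (.un (x 0)) (x 0)) .c])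

/-- The class of residually finite groups is the class of models of one `L_{∞,∞}`-sentence. -/
theorem result : ∃ φ : Fm Unit Empty, ∀ (M : Type u) (S : Str Unit M), φ.Sat S Empty.elim ↔
    ∃ _ : Group M, S = str M ∧ ∀ g : M, g ≠ 1 → ∃ N : Subgroup M, N.Normal ∧ N.FiniteIndex ∧ g ∉ N := by
  refine ⟨and ax rf, fun M S => ?_⟩
  simp only [sat_and, sat_rf, ax, Fm.Sat, Fin.forall_fin_succ, x]
  refine ⟨fun ⟨h, hr⟩ => ?_, ?_⟩
  · letI : Mul M := ⟨S.op ()⟩
    letI : Inv M := ⟨S.un⟩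
    letI : One M := ⟨S.c⟩
    letI : Group M := .ofLeftAxioms (fun a b c => (h ![a, b, c]).1) (fun a => (h fun _ => a).2.1)
      fun a => (h fun _ => a).2.2.1
    refine ⟨inferInstance, rfl, fun g hg => ?_⟩
    obtain ⟨n, F, f, hf, ha⟩ := hr g hg
    let c : Con M := ⟨Setoid.ker f, fun {a b c d} (h1 : f a = f b) (h2 : f c = f d) =>
      (hf.2.2 () a c).trans (h1 ▸ h2 ▸ (hf.2.2 () b d).symm)⟩
    haveI : Finite c.Quotient := .of_injective _ (Setoid.kerLift_injective f)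
    exact ⟨c.mk'.ker, inferInstance, inferInstance, fun h => ha ((c.eq.1 h : f g = f 1).trans hf.1)⟩
  · rintro ⟨_, rfl, h⟩
    refine ⟨fun w => ⟨mul_assoc _ _ _, one_mul _, inv_mul_cancel _, fun i => i.elim0⟩, fun a ha => ?_⟩
    obtain ⟨N, _, _, hN⟩ := h a ha
    exact to_fin (F := str (M ⧸ N)) (f := QuotientGroup.mk) ⟨rfl, fun _ => rfl, fun _ _ _ => rfl⟩
      fun e => hN ((QuotientGroup.eq_one_iff a).1 e)

end Pool.Agent.Results.MP_f264ea_lc.Groups
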