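import Pool.Agent.H4.InfLogic

namespace Pool.Agent.Results.MP_f264ea_lc.Rings

open Pool.Agent.H4.InfLogic

universe u

/-- A ring as a structure in the signature `{0, -, +, ·}` (`true` indexes `+`, `false` indexes `·`). -/
def str (M : Type u) [NonUnitalRing M] : Str Bool M := ⟨0, (-·), fun b x y => cond b (x + y) (x * y)⟩

def x (i : Fin 3) : Tm Bool (Empty ⊕ Fin 3) := .var (.inr i)

def ax : Fm Bool Empty := .all (Fin 3) (.conj (Fin 9)
  ![.eq (.op true (.op true (x 0) (x 1)) (x 2)) (.op true (x 0) (.op true (x 1) (x 2))),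
    .eq (.op true .c (x 0)) (x 0), .eq (.op true (.un (x 0)) (x 0)) .c,
    .eq (.op true (x 0) (x 1)) (.op true (x 1) (x 0)),
    .eq (.op false (.op false (x 0) (x 1)) (x 2)) (.op false (x 0) (.op false (x 1) (x 2))),
    .eq (.op false (x 0) (.op true (x 1) (x 2))) (.op true (.op false (x 0) (x 1)) (.op false (x 0) (x 2))),
    .eq (.op false (.op true (x 0) (x 1)) (x 2)) (.op true (.op false (x 0) (x 2)) (.op false (x 1) (x 2))),
    .eq (.op false .c (x 0)) .c, .eq (.op false (x 0) .c) .c])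

/-- The class of residually finite rings is the class of models of one `L_{∞,∞}`-sentence. -/
theorem result : ∃ φ : Fm Bool Empty, ∀ (M : Type u) (S : Str Bool M), φ.Sat S Empty.elim ↔
    ∃ _ : NonUnitalRing M, S = str M ∧
      ∀ a : M, a ≠ 0 → ∃ I : TwoSidedIdeal M, Finite I.ringCon.Quotient ∧ a ∉ I := by
  refine ⟨and ax rf, fun M S => ?_⟩
  simp only [sat_and, sat_rf, ax, Fm.Sat, Fin.forall_fin_succ, x]
  refine ⟨fun ⟨h, hr⟩ => ?_, ?_⟩
  · letI : Add M := ⟨S.op true⟩
    letI : Neg M := ⟨S.un⟩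
    letI : Zero M := ⟨S.c⟩
    letI : NonUnitalRing M :=
      { AddGroup.ofLeftAxioms (fun a b c => (h ![a, b, c]).1) (fun a => (h fun _ => a).2.1)
          fun a => (h fun _ => a).2.2.1 with
        mul := S.op false
        add_comm := fun a b => (h ![a, b, a]).2.2.2.1
        mul_assoc := fun a b c => (h ![a, b, c]).2.2.2.2.1
        left_distrib := fun a b c => (h ![a, b, c]).2.2.2.2.2.1
        right_distrib := fun a b c => (h ![a, b, c]).2.2.2.2.2.2.1
        zero_mul := fun a => (h fun _ => a).2.2.2.2.2.2.2.1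
        mul_zero := fun a => (h fun _ => a).2.2.2.2.2.2.2.2.1 }
    refine ⟨inferInstance, ?_, fun g hg => ?_⟩
    · obtain ⟨c, un, op⟩ := S
      simp only [str, Str.mk.injEq]
      exact ⟨rfl, rfl, funext fun b => by cases b <;> rfl⟩
    obtain ⟨n, F, f, hf, ha⟩ := hr g hg
    have e : ∀ b {x y z w}, f x = f y → f z = f w → f (S.op b x z) = f (S.op b y w) := fun b x y z w h1 h2 => by
      rw [hf.2.2, hf.2.2, h1, h2]
    let c : RingCon M := ⟨⟨Setoid.ker f, e false⟩, e true⟩
    exact ⟨⟨c⟩, .of_injective _ (Setoid.kerLift_injective f), fun h => ha ((h : f g = f 0).trans hf.1)⟩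
  · rintro ⟨_, rfl, h⟩
    refine ⟨fun w => ⟨add_assoc _ _ _, zero_add _, neg_add_cancel _, add_comm _ _, mul_assoc _ _ _,
      mul_add _ _ _, add_mul _ _ _, zero_mul _, mul_zero _, fun i => i.elim0⟩, fun a ha => ?_⟩
    obtain ⟨I, _, hI⟩ := h a ha
    exact to_fin (F := str I.ringCon.Quotient) (f := (↑)) ⟨rfl, fun _ => rfl, fun b _ _ => by cases b <;> rfl⟩
      fun e => hI (I.ringCon.eq.1 e)

end Pool.Agent.Results.MP_f264ea_lc.Rings
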